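import Mathlib
import Pool.Agent.helper18.Rot.Defs
import Pool.Agent.helper9.Rot.Iso

/-!
# The surface `Surf` is a Riemann surface

Charts `e` with `π (e.symm z) = c + z ^ k`, `k = 1` at generic points, `k = 3` at branch points.
-/

open Topology Filter Set
open scoped Manifold ContDiff ComplexConjugate

namespace Pool.Agent.helper17.Rot

open Pool.Agent.helper18.Rot Pool.Agent.helper18.Rot.Par

/-- the torus -/
abbrev Tor : Type := UnitAddCircle × UnitAddCircle

/-- the point `c + z` of the torus -/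
noncomputable def tor (c : Tor) (z : ℂ) : Tor :=
  (c.1 + (z.re : UnitAddCircle), c.2 + (z.im : UnitAddCircle))

/-- representative in `(-1/2, 1/2]` -/
noncomputable def rl (x : UnitAddCircle) : ℝ := (AddCircle.equivIoc (1 : ℝ) (-(1 / 2)) x : ℝ)

theorem coe_rl (x : UnitAddCircle) : ((rl x : ℝ) : UnitAddCircle) = x :=
  AddCircle.coe_equivIoc (p := (1 : ℝ)) (a := -(1 / 2)) (y := x)

theorem rl_coe {u : ℝ} (h : |u| < 1 / 2) : rl (u : UnitAddCircle) = u := by
  unfold rl
  rw [AddCircle.equivIoc_coe_eq]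
  rw [abs_lt] at h
  constructor <;> linarith

theorem norm_coe_le (u : ℝ) : ‖(u : UnitAddCircle)‖ ≤ |u| := by
  have := UnitAddCircle.norm_eq (x := u)
  rw [this]
  have h := round_le u 0
  simpa using h

theorem rl_continuousAt {x : UnitAddCircle} (hx : ‖x‖ < 1 / 2) : ContinuousAt rl x := by
  unfold rl
  apply continuous_subtype_val.continuousAt.comp
  apply AddCircle.continuousAt_equivIoc
  rintro rfl
  rw [AddCircle.coe_neg, norm_neg, UnitAddCircle.norm_eq] at hx
  have : round (1 / 2 : ℝ) = 1 := by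
    rw [one_div]; exact round_two_inv
  rw [this] at hx
  norm_num [abs_lt] at hx

theorem abs_rl (x : UnitAddCircle) : |rl x| = ‖x‖ := by
  have h1 : rl x ∈ Ioc (-(1 / 2) : ℝ) (-(1 / 2) + 1) := (AddCircle.equivIoc (1 : ℝ) (-(1 / 2)) x).2
  have h2 : ‖((rl x : ℝ) : UnitAddCircle)‖ = |rl x| ↔ |rl x| ≤ |(1 : ℝ)| / 2 :=
    AddCircle.norm_coe_eq_abs_iff (1 : ℝ) one_ne_zero
  rw [coe_rl] at h2
  symm
  rw [h2, abs_one, abs_le]
  constructor <;> linarith [h1.1, h1.2]

/-- local lift to `ℂ` -/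
noncomputable def lft (c q : Tor) : ℂ := ⟨rl (q.1 - c.1), rl (q.2 - c.2)⟩

theorem tor_lft (c q : Tor) : tor c (lft c q) = q := by
  unfold tor lft
  simp only [coe_rl]
  simp

theorem lft_tor (c : Tor) {z : ℂ} (h1 : |z.re| < 1 / 2) (h2 : |z.im| < 1 / 2) :
    lft c (tor c z) = z := by
  unfold lft tor
  simp only [add_sub_cancel_left, rl_coe h1, rl_coe h2]

theorem tor_zero (c : Tor) : tor c 0 = c := by
  simp [tor]

theorem continuous_tor (c : Tor) : Continuous (tor c) := by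
  unfold tor
  have h1 : Continuous fun z : ℂ => ((z.re : ℝ) : UnitAddCircle) :=
    (AddCircle.continuous_mk' 1).comp Complex.continuous_re
  have h2 : Continuous fun z : ℂ => ((z.im : ℝ) : UnitAddCircle) :=
    (AddCircle.continuous_mk' 1).comp Complex.continuous_im
  exact (continuous_const.add h1).prodMk (continuous_const.add h2)

theorem lft_continuousAt {c q : Tor} (h1 : ‖q.1 - c.1‖ < 1 / 2) (h2 : ‖q.2 - c.2‖ < 1 / 2) :
    ContinuousAt (lft c) q := by
  have e : lft c = fun q => ((rl (q.1 - c.1) : ℝ) : ℂ) + ((rl (q.2 - c.2) : ℝ) : ℂ) * Complex.I := by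
    funext q
    apply Complex.ext <;> simp [lft]
  rw [e]
  have h3 : ContinuousAt (fun q : Tor => rl (q.1 - c.1)) q :=
    ContinuousAt.comp (g := rl) (f := fun q : Tor => q.1 - c.1) (rl_continuousAt h1)
      (by fun_prop)
  have h4 : ContinuousAt (fun q : Tor => rl (q.2 - c.2)) q :=
    ContinuousAt.comp (g := rl) (f := fun q : Tor => q.2 - c.2) (rl_continuousAt h2)
      (by fun_prop)
  exact (Complex.continuous_ofReal.continuousAt.comp h3).add
    ((Complex.continuous_ofReal.continuousAt.comp h4).mul continuousAt_const)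

/-! ### Roots -/

theorem eq_of_cube_eq {a b : ℂ} (h : a ^ 3 = b ^ 3) (hab : ‖a - b‖ < ‖b‖) : a = b := by
  by_contra hne
  have h1 : (a - b) * (a ^ 2 + a * b + b ^ 2) = 0 := by linear_combination h
  rcases mul_eq_zero.1 h1 with h2 | h2
  · exact hne (sub_eq_zero.1 h2)
  · have h3 : (a - b) ^ 2 = -3 * a * b := by linear_combination h2
    have h4 : ‖a‖ = ‖b‖ := by
      have := congrArg norm h
      rw [norm_pow, norm_pow] at this
      exact (pow_left_inj₀ (norm_nonneg _) (norm_nonneg _) (by norm_num)).1 this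
    have h5 : ‖a - b‖ ^ 2 = 3 * ‖b‖ ^ 2 := by
      rw [← norm_pow, h3, norm_mul, norm_mul, h4]
      norm_num
      ring
    nlinarith [norm_nonneg (a - b), norm_nonneg b]

theorem cb_pow' (z : ℂ) : cb z ^ 3 = z := by
  unfold cb
  have h := Complex.cpow_nat_inv_pow z (n := 3) (by norm_num)
  simpa using h

theorem cb_differentiableAt' {z : ℂ} (hz : z ∈ Complex.slitPlane) : DifferentiableAt ℂ cb z := by
  unfold cb
  exact differentiableAt_id.cpow_const hz

theorem cb_cube {u : ℂ} (h : |u.arg| < Real.pi / 3) : cb (u ^ 3) = u := by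
  unfold cb
  rw [abs_lt] at h
  have := Complex.pow_cpow_nat_inv (x := u) (n := 3) (by norm_num) (by simpa using h.1)
    (by simpa using h.2.le)
  simpa using this

theorem diff_of_cube {f : ℂ → ℂ} {z₀ : ℂ} (hf : ContinuousAt f z₀) (h0 : f z₀ ≠ 0)
    (hd : DifferentiableAt ℂ (fun z => f z ^ 3) z₀) : DifferentiableAt ℂ f z₀ := by
  have h1 : ContinuousAt (fun z => (f z / f z₀).arg) z₀ := by
    have h2 : ContinuousAt (fun z => f z / f z₀) z₀ := hf.div_const _
    apply ContinuousAt.comp (g := Complex.arg) (f := fun z => f z / f z₀) _ h2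
    apply Complex.continuousAt_arg
    rw [div_self h0]
    exact Complex.one_mem_slitPlane
  have h2 : ∀ᶠ z in 𝓝 z₀, |(f z / f z₀).arg| < Real.pi / 3 := by
    have h3 : Tendsto (fun z => |(f z / f z₀).arg|) (𝓝 z₀) (𝓝 |(f z₀ / f z₀).arg|) := h1.abs
    rw [div_self h0, Complex.arg_one, abs_zero] at h3
    exact h3.eventually_lt_const (by positivity)
  have h3 : f =ᶠ[𝓝 z₀] fun z => f z₀ * cb (f z ^ 3 / f z₀ ^ 3) := by
    filter_upwards [h2] with z hz
    rw [← div_pow, cb_cube hz]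
    field_simp
  rw [h3.differentiableAt_iff]
  have h4 : DifferentiableAt ℂ cb (f z₀ ^ 3 / f z₀ ^ 3) := by
    rw [div_self (pow_ne_zero 3 h0)]
    exact cb_differentiableAt' Complex.one_mem_slitPlane
  exact (DifferentiableAt.comp z₀ h4 (hd.div_const _)).const_mul _

theorem norm_cb_sub_one_le' {z : ℂ} (hz : ‖z - 1‖ ≤ 1 / 4) : ‖cb z - 1‖ ≤ 1 / 4 := by
  have hz0 : z ≠ 0 := by
    rintro rfl
    norm_num at hz
  have hre : 0 < z.re := by
    have h1 := Complex.abs_re_le_norm (z - 1)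
    rw [Complex.sub_re, Complex.one_re] at h1
    have h2 := abs_le.1 (h1.trans hz)
    linarith [h2.1]
  have harg : |z.arg| < Real.pi / 2 := Complex.abs_arg_lt_pi_div_two_iff.2 (Or.inl hre)
  rw [abs_lt] at harg
  have hpi := Real.pi_pos
  have hw : cb z = Complex.exp (Complex.log z / 3) := by
    unfold cb
    rw [Complex.cpow_def_of_ne_zero hz0]
    congr 1
    ring
  have him : (Complex.log z / 3).im = z.arg / 3 := by
    have : Complex.log z / 3 = Complex.log z / ((3 : ℝ) : ℂ) := by norm_num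
    rw [this, Complex.div_ofReal_im, Complex.log_im]
  have h1 : 0 ≤ (cb z).re := by
    rw [hw, Complex.exp_re, him]
    apply mul_nonneg (Real.exp_pos _).le
    apply Real.cos_nonneg_of_mem_Icc
    constructor <;> linarith [harg.1, harg.2]
  have h2 : 0 ≤ ((cb z) ^ 2).re := by
    rw [hw, ← Complex.exp_nat_mul, Complex.exp_re]
    apply mul_nonneg (Real.exp_pos _).le
    have : (((2 : ℕ) : ℂ) * (Complex.log z / 3)).im = 2 * (z.arg / 3) := by
      rw [Complex.mul_im, him]
      simp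
    rw [this]
    apply Real.cos_nonneg_of_mem_Icc
    constructor <;> linarith [harg.1, harg.2]
  have h3 : (cb z - 1) * (cb z ^ 2 + cb z + 1) = z - 1 := by
    linear_combination cb_pow' z
  have h4 : 1 ≤ ‖cb z ^ 2 + cb z + 1‖ := by
    refine le_trans ?_ (Complex.re_le_norm _)
    rw [Complex.add_re, Complex.add_re, Complex.one_re]
    linarith
  have h5 : ‖cb z - 1‖ * ‖cb z ^ 2 + cb z + 1‖ = ‖z - 1‖ := by
    rw [← norm_mul, h3]
  nlinarith [norm_nonneg (cb z - 1)]

/-! ### Construction of charts -/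

section charts

variable (P : Par)

theorem exists_homeo (φ : P.Surf → ℂ) (s : ℂ → Tor × (Fin 2 → ℂ)) (V : Set P.Surf) (ρ : ℝ)
    (hV : IsOpen V) (hφ : ContinuousOn φ V) (hs : ContinuousOn s (Metric.ball 0 ρ))
    (hm : ∀ z ∈ Metric.ball (0 : ℂ) ρ, ∀ i, (s z).2 i ^ 3 = P.G i (s z).1)
    (h1 : ∀ z ∈ Metric.ball (0 : ℂ) ρ, ∀ q : P.Surf, q.1 = s z → q ∈ V ∧ φ q = z)
    (h2 : ∀ q ∈ V, φ q ∈ Metric.ball (0 : ℂ) ρ → s (φ q) = q.1) (p : P.Surf) :
    ∃ e : OpenPartialHomeomorph P.Surf ℂ, e.source = V ∩ φ ⁻¹' Metric.ball 0 ρ ∧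
      e.target = Metric.ball 0 ρ ∧ (∀ q, e q = φ q) ∧
      ∀ z ∈ Metric.ball (0 : ℂ) ρ, (e.symm z).1 = s z := by
  classical
  let sg : ℂ → P.Surf := fun z => if h : z ∈ Metric.ball (0 : ℂ) ρ then ⟨s z, hm z h⟩ else p
  have hsg : ∀ z ∈ Metric.ball (0 : ℂ) ρ, (sg z).1 = s z := by
    intro z hz
    simp only [sg, dif_pos hz]
  refine ⟨{ toFun := φ, invFun := sg, source := V ∩ φ ⁻¹' Metric.ball 0 ρ,
            target := Metric.ball 0 ρ, map_source' := ?_, map_target' := ?_, left_inv' := ?_,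
            right_inv' := ?_, open_source := ?_, open_target := Metric.isOpen_ball,
            continuousOn_toFun := ?_, continuousOn_invFun := ?_ }, rfl, rfl, fun _ => rfl, hsg⟩
  · rintro q ⟨-, hq⟩
    exact hq
  · intro z hz
    obtain ⟨h3, h4⟩ := h1 z hz (sg z) (hsg z hz)
    refine ⟨h3, ?_⟩
    rw [mem_preimage, h4]
    exact hz
  · rintro q ⟨hq, hq2⟩
    apply Subtype.ext
    rw [hsg _ hq2]
    exact h2 q hq hq2
  · intro z hz
    exact (h1 z hz (sg z) (hsg z hz)).2
  · exact hφ.mono inter_subset_left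
  · have : IsInducing (fun q : P.Surf => q.1) := IsInducing.subtypeVal
    rw [this.continuousOn_iff]
    exact hs.congr hsg
  · exact hφ.isOpen_inter_preimage hV Metric.isOpen_ball

/-- orientation of the local model -/
noncomputable def bco (b : Bool) (w : ℂ) : ℂ := if b then conj w else -w

theorem bco_bco (b : Bool) (w : ℂ) : bco b (bco b w) = w := by
  cases b <;> simp [bco]

theorem bco_cube (b : Bool) (w : ℂ) : bco b (w ^ 3) = bco b w ^ 3 := by
  cases b
  · simp only [bco, Bool.false_eq_true, if_false]; ring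
  · simp [bco]

theorem continuous_bco (b : Bool) : Continuous (bco b) := by
  cases b
  · have : bco false = fun w => -w := by funext w; simp [bco]
    rw [this]; fun_prop
  · have : bco true = fun w => conj w := by funext w; simp [bco]
    rw [this]; exact Complex.continuous_conj

theorem norm_bco (b : Bool) (w : ℂ) : ‖bco b w‖ = ‖w‖ := by
  cases b
  · simp [bco]
  · simp [bco]

theorem bco_zero (b : Bool) : bco b 0 = 0 := by
  cases b <;> simp [bco]

/-- end points of the slits -/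
noncomputable def ept (i : Fin 2) (b : Bool) : Tor :=
  (if b then (P.hi i : UnitAddCircle) else (P.lo i : UnitAddCircle), 0)

theorem norm_coe_eq {u : ℝ} (h : |u| ≤ 1 / 2) : ‖(u : UnitAddCircle)‖ = |u| := by
  refine (AddCircle.norm_coe_eq_abs_iff (1 : ℝ) one_ne_zero).2 ?_
  rw [abs_one]
  exact h

theorem G_near' (i : Fin 2) (x : UnitAddCircle) {v : ℝ} (hv : |v| ≤ 1 / 8) :
    P.G i (x, (v : UnitAddCircle)) = ⟨P.dl i x, -v⟩ := by
  have h1 : ‖(v : UnitAddCircle)‖ = |v| := norm_coe_eq (by linarith)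
  have h2 : tent (v : UnitAddCircle) = v := by
    unfold tent
    rw [← AddCircle.coe_sub]
    rw [abs_le] at hv
    rw [norm_coe_eq, abs_of_nonpos]
    · ring
    · linarith [hv.2]
    · rw [abs_le]; constructor <;> linarith [hv.1, hv.2]
  unfold G
  simp only [h1, h2]
  rw [max_eq_left (by linarith), add_zero]

theorem G_lo' (i : Fin 2) {u v : ℝ} (hu : |u| ≤ P.r i) (hv : |v| ≤ 1 / 8) :
    P.G i (((P.lo i + u : ℝ) : UnitAddCircle), (v : UnitAddCircle)) = -⟨u, v⟩ := by
  rw [G_near' P i _ hv]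
  have hr := Pool.Agent.helper9.Rot.r_bd P i
  rw [abs_le] at hu
  have h1 : P.dl i ((P.lo i + u : ℝ) : UnitAddCircle) = -u := by
    unfold dl
    rw [← AddCircle.coe_sub]
    have h2 : P.lo i + u - P.c i = u - P.r i := by unfold c r; ring
    rw [h2, norm_coe_eq, abs_of_nonpos]
    · ring
    · linarith [hu.2]
    · rw [abs_le]; constructor <;> linarith [hu.1, hu.2, hr.2]
  rw [h1]
  apply Complex.ext <;> simp

theorem G_hi' (i : Fin 2) {u v : ℝ} (hu : |u| ≤ P.r i) (hv : |v| ≤ 1 / 8) :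
    P.G i (((P.hi i + u : ℝ) : UnitAddCircle), (v : UnitAddCircle)) = ⟨u, -v⟩ := by
  rw [G_near' P i _ hv]
  have hr := Pool.Agent.helper9.Rot.r_bd P i
  rw [abs_le] at hu
  have h1 : P.dl i ((P.hi i + u : ℝ) : UnitAddCircle) = u := by
    unfold dl
    rw [← AddCircle.coe_sub]
    have h2 : P.hi i + u - P.c i = u + P.r i := by unfold c r; ring
    rw [h2, norm_coe_eq, abs_of_nonneg]
    · ring
    · linarith [hu.1]
    · rw [abs_le]; constructor <;> linarith [hu.1, hu.2, hr.2]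
  rw [h1]

theorem eq_of_norm_eq {x : UnitAddCircle} {r : ℝ} (h : ‖x‖ = r) :
    x = (r : UnitAddCircle) ∨ x = ((-r : ℝ) : UnitAddCircle) := by
  rw [← abs_rl] at h
  rcases abs_choice (rl x) with h1 | h1
  · left
    rw [← h, h1, coe_rl]
  · right
    rw [← h, h1, neg_neg, coe_rl]

theorem G_eq_zero' (i : Fin 2) {q : Tor} (h : P.G i q = 0) :
    q.2 = 0 ∧ (q.1 = (P.lo i : UnitAddCircle) ∨ q.1 = (P.hi i : UnitAddCircle)) := by
  have hre : P.dl i q.1 + max 0 (‖q.2‖ - 1 / 8) = 0 := congrArg Complex.re h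
  have him : - tent q.2 = 0 := congrArg Complex.im h
  have hr := Pool.Agent.helper9.Rot.r_bd P i
  have h2 : q.2 = 0 := by
    unfold tent at him
    have h3 : ‖q.2 - ((1 / 4 : ℝ) : UnitAddCircle)‖ = 1 / 4 := by linarith
    rcases eq_of_norm_eq h3 with h4 | h4
    · exfalso
      have h5 : q.2 = ((1 / 2 : ℝ) : UnitAddCircle) := by
        rw [sub_eq_iff_eq_add.1 h4, ← AddCircle.coe_add]
        norm_num
      have h6 : ‖q.2‖ = 1 / 2 := by
        rw [h5, norm_coe_eq] <;> norm_num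
      rw [h6] at hre
      unfold dl at hre
      have h7 := norm_nonneg (q.1 - (P.c i : UnitAddCircle))
      have h8 : max 0 ((1 : ℝ) / 2 - 1 / 8) = 3 / 8 := by
        rw [max_eq_right] <;> norm_num
      rw [h8] at hre
      linarith [hr.2]
    · rw [sub_eq_iff_eq_add.1 h4, ← AddCircle.coe_add]
      norm_num
  refine ⟨h2, ?_⟩
  rw [h2, norm_zero, max_eq_left (by norm_num), add_zero] at hre
  unfold dl at hre
  have h3 : ‖q.1 - (P.c i : UnitAddCircle)‖ = P.r i := by linarith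
  rcases eq_of_norm_eq h3 with h4 | h4
  · right
    rw [sub_eq_iff_eq_add.1 h4, ← AddCircle.coe_add]
    congr 1
    unfold c r; ring
  · left
    rw [sub_eq_iff_eq_add.1 h4, ← AddCircle.coe_add]
    congr 1
    unfold c r; ring

theorem G_ept (i : Fin 2) (b : Bool) {ζ : ℂ} (hu : |ζ.re| ≤ P.r i) (hv : |ζ.im| ≤ 1 / 8) :
    P.G i (tor (ept P i b) ζ) = bco b ζ := by
  cases b
  · have h := G_lo' P i hu hv
    simp only [tor, ept, bco, Bool.false_eq_true, if_false, zero_add]
    rw [AddCircle.coe_add] at h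
    exact h
  · have h := G_hi' P i hu hv
    simp only [tor, ept, bco, if_true, zero_add]
    rw [AddCircle.coe_add] at h
    rw [h]
    apply Complex.ext <;> simp

theorem coe_inj {x y : ℝ} (hx : 0 ≤ x ∧ x < 1 / 8) (hy : 0 ≤ y ∧ y < 1 / 8)
    (h : (x : UnitAddCircle) = (y : UnitAddCircle)) : x = y := by
  have : Fact ((0 : ℝ) < 1) := ⟨one_pos⟩
  refine (AddCircle.coe_eq_coe_iff_of_mem_Ico (p := (1 : ℝ)) (a := 0) ?_ ?_).1 h
  · constructor <;> linarith [hx.1, hx.2]
  · constructor <;> linarith [hy.1, hy.2]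

theorem lo_bd (i : Fin 2) : 0 ≤ P.lo i ∧ P.lo i < 1 / 8 := by
  have h0 := P.lo_nonneg
  have h1 := P.lo_hi 0
  have h2 := P.lo_hi 1
  have h3 := P.hi_lo
  have h4 := P.hi_lt
  fin_cases i <;> simp <;> constructor <;> linarith

theorem hi_bd (i : Fin 2) : 0 ≤ P.hi i ∧ P.hi i < 1 / 8 := by
  have h0 := P.lo_nonneg
  have h1 := P.lo_hi 0
  have h2 := P.lo_hi 1
  have h3 := P.hi_lo
  have h4 := P.hi_lt
  fin_cases i <;> simp <;> constructor <;> linarith

theorem ept_inj {i : Fin 2} {b b' : Bool} (h : ept P i b = ept P i b') : b = b' := by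
  have h1 : (ept P i b).1 = (ept P i b').1 := by rw [h]
  have h2 := P.lo_hi i
  cases b <;> cases b' <;> simp only [ept, Bool.false_eq_true, if_false, if_true] at h1
  · rfl
  · have := coe_inj (lo_bd P i) (hi_bd P i) h1
    linarith
  · have := coe_inj (hi_bd P i) (lo_bd P i) h1
    linarith
  · rfl

theorem G_ept_ne {i j : Fin 2} (b : Bool) (hij : j ≠ i) : P.G j (ept P i b) ≠ 0 := by
  intro h
  obtain ⟨-, h⟩ := G_eq_zero' P j h
  have h1 := P.lo_hi 0
  have h2 := P.lo_hi 1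
  have h3 := P.hi_lo
  have key : ∀ x y : ℝ, (x = P.lo i ∨ x = P.hi i) → (y = P.lo j ∨ y = P.hi j) → x ≠ y := by
    intro x y hx hy hxy
    fin_cases i <;> fin_cases j <;> simp at hij hx hy <;>
      rcases hx with rfl | rfl <;> rcases hy with hy | hy <;> linarith
  cases b
  · simp only [ept, Bool.false_eq_true, if_false] at h
    rcases h with h | h
    · exact key _ _ (Or.inl rfl) (Or.inl rfl) (coe_inj (lo_bd P i) (lo_bd P j) h)
    · exact key _ _ (Or.inl rfl) (Or.inr rfl) (coe_inj (lo_bd P i) (hi_bd P j) h)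
  · simp only [ept, if_true] at h
    rcases h with h | h
    · exact key _ _ (Or.inr rfl) (Or.inl rfl) (coe_inj (hi_bd P i) (lo_bd P j) h)
    · exact key _ _ (Or.inr rfl) (Or.inr rfl) (coe_inj (hi_bd P i) (hi_bd P j) h)

theorem norm_G_tor (i : Fin 2) (c : Tor) (z : ℂ) : ‖P.G i (tor c z) - P.G i c‖ ≤ 3 * ‖z‖ := by
  have h := Pool.Agent.helper9.Rot.norm_G_sub_le P i c z.re z.im
  have h1 := Complex.abs_re_le_norm z
  have h2 := Complex.abs_im_le_norm z
  have h3 : P.G i (tor c z) =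
    P.G i (c.1 + (z.re : UnitAddCircle), c.2 + (z.im : UnitAddCircle)) := rfl
  rw [h3]
  linarith

/-- local branch of the cube root of `G` near `c` with value `w` at `c` -/
noncomputable def brn (i : Fin 2) (c : Tor) (w z : ℂ) : ℂ := w * cb (P.G i (tor c z) / P.G i c)

theorem ratio_close {i : Fin 2} {c : Tor} {z : ℂ} (hg : P.G i c ≠ 0)
    (hz : ‖z‖ ≤ ‖P.G i c‖ / 12) : ‖P.G i (tor c z) / P.G i c - 1‖ ≤ 1 / 4 := by
  have h := norm_G_tor P i c z
  have h0 : 0 < ‖P.G i c‖ := norm_pos_iff.2 hg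
  have e : P.G i (tor c z) / P.G i c - 1 = (P.G i (tor c z) - P.G i c) / P.G i c := by
    field_simp
  rw [e, norm_div, div_le_iff₀ h0]
  linarith

theorem brn_cube {i : Fin 2} {c : Tor} {w : ℂ} (z : ℂ) (hg : P.G i c ≠ 0)
    (hw : w ^ 3 = P.G i c) : brn P i c w z ^ 3 = P.G i (tor c z) := by
  unfold brn
  rw [mul_pow, cb_pow', hw]
  field_simp

theorem brn_close {i : Fin 2} {c : Tor} {w z : ℂ} (hg : P.G i c ≠ 0)
    (hz : ‖z‖ ≤ ‖P.G i c‖ / 12) : ‖brn P i c w z - w‖ ≤ ‖w‖ / 4 := by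
  unfold brn
  have e : w * cb (P.G i (tor c z) / P.G i c) - w = w * (cb (P.G i (tor c z) / P.G i c) - 1) := by
    ring
  rw [e, norm_mul]
  have := norm_cb_sub_one_le' (ratio_close P hg hz)
  nlinarith [norm_nonneg w]

theorem mem_slit_of_close {z : ℂ} (h : ‖z - 1‖ ≤ 1 / 4) : z ∈ Complex.slitPlane := by
  left
  have h1 := Complex.abs_re_le_norm (z - 1)
  rw [Complex.sub_re, Complex.one_re] at h1
  have h2 := abs_le.1 (h1.trans h)
  linarith [h2.1]

theorem brn_continuousAt {i : Fin 2} {c : Tor} {w z : ℂ} (hg : P.G i c ≠ 0)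
    (hz : ‖z‖ ≤ ‖P.G i c‖ / 12) : ContinuousAt (brn P i c w) z := by
  unfold brn
  apply ContinuousAt.mul continuousAt_const
  have h1 : ContinuousAt cb (P.G i (tor c z) / P.G i c) :=
    (cb_differentiableAt' (mem_slit_of_close (ratio_close P hg hz))).continuousAt
  have h2 : Continuous fun z => P.G i (tor c z) / P.G i c :=
    ((Pool.Agent.helper9.Rot.continuous_G P i).comp (continuous_tor c)).div_const _
  exact ContinuousAt.comp (g := cb) (f := fun z => P.G i (tor c z) / P.G i c) h1 h2.continuousAt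

theorem brn_unique {i : Fin 2} {c : Tor} {w z v : ℂ} (hg : P.G i c ≠ 0) (hw : w ^ 3 = P.G i c)
    (hz : ‖z‖ ≤ ‖P.G i c‖ / 12) (hv : ‖v - w‖ < ‖w‖ / 2) (hv3 : v ^ 3 = P.G i (tor c z)) :
    brn P i c w z = v := by
  have h1 := brn_close P (w := w) hg hz
  symm
  apply eq_of_cube_eq
  · rw [hv3, brn_cube P z hg hw]
  · have h2 : ‖v - brn P i c w z‖ ≤ ‖v - w‖ + ‖brn P i c w z - w‖ := by
      have : v - brn P i c w z = (v - w) - (brn P i c w z - w) := by ring
      rw [this]
      exact norm_sub_le _ _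
    have h3 : ‖w‖ ≤ ‖brn P i c w z‖ + ‖brn P i c w z - w‖ := by
      have : w = brn P i c w z - (brn P i c w z - w) := by ring
      calc ‖w‖ = ‖brn P i c w z - (brn P i c w z - w)‖ := by rw [← this]
        _ ≤ _ := norm_sub_le _ _
    linarith

/-- unbranched charts -/
def Gen (e : OpenPartialHomeomorph P.Surf ℂ) : Prop :=
  (∃ c : Tor, ∀ z ∈ e.target, (e.symm z).1.1 = tor c z) ∧ ∀ q ∈ e.source, ∀ i, q.1.2 i ≠ 0

/-- branched charts -/
def Br (e : OpenPartialHomeomorph P.Surf ℂ) : Prop :=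
  ∃ (i : Fin 2) (b : Bool), (∀ q ∈ e.source, e q = bco b (q.1.2 i)) ∧
    (∀ z ∈ e.target, (e.symm z).1.1 = tor (ept P i b) (z ^ 3)) ∧
    ∀ q ∈ e.source, ∀ j ≠ i, q.1.2 j ≠ 0

theorem ne_zero_of_close {v w : ℂ} (h : ‖v - w‖ < ‖w‖ / 2) : v ≠ 0 := by
  rintro rfl
  rw [zero_sub, norm_neg] at h
  linarith [norm_nonneg w]

theorem exists_gen (p : P.Surf) (hp : ∀ i, P.G i p.1.1 ≠ 0) :
    ∃ e : OpenPartialHomeomorph P.Surf ℂ, p ∈ e.source ∧ Gen P e := by
  set c : Tor := p.1.1 with hc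
  have hw : ∀ i, p.1.2 i ^ 3 = P.G i c := p.2
  have hw0 : ∀ i, p.1.2 i ≠ 0 := by
    intro i h
    have := hw i
    rw [h] at this
    exact hp i (by rw [← this]; norm_num)
  obtain ⟨ρ, hρ0, hρ1, hρ⟩ : ∃ ρ : ℝ, 0 < ρ ∧ ρ ≤ 1 / 4 ∧ ∀ i, ρ ≤ ‖P.G i c‖ / 12 := by
    refine ⟨min (1 / 4) (min (‖P.G 0 c‖ / 12) (‖P.G 1 c‖ / 12)), ?_, min_le_left _ _, ?_⟩
    · have h0 : 0 < ‖P.G 0 c‖ := norm_pos_iff.2 (hp 0)
      have h1 : 0 < ‖P.G 1 c‖ := norm_pos_iff.2 (hp 1)
      positivity
    · intro i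
      fin_cases i
      · exact (min_le_right _ _).trans (min_le_left _ _)
      · exact (min_le_right _ _).trans (min_le_right _ _)
  let s : ℂ → Tor × (Fin 2 → ℂ) := fun z => (tor c z, fun i => brn P i c (p.1.2 i) z)
  let V : Set P.Surf := {q | (‖q.1.1.1 - c.1‖ < 1 / 2 ∧ ‖q.1.1.2 - c.2‖ < 1 / 2) ∧
    ∀ i, ‖q.1.2 i - p.1.2 i‖ < ‖p.1.2 i‖ / 2}
  have hval : Continuous fun q : P.Surf => q.1 := continuous_subtype_val
  have hV : IsOpen V := by
    refine IsOpen.inter (IsOpen.inter ?_ ?_) ?_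
    · exact isOpen_lt (f := fun q : P.Surf => ‖q.1.1.1 - c.1‖) (g := fun _ => 1 / 2)
        (by fun_prop) continuous_const
    · exact isOpen_lt (f := fun q : P.Surf => ‖q.1.1.2 - c.2‖) (g := fun _ => 1 / 2)
        (by fun_prop) continuous_const
    · have : {q : P.Surf | ∀ i, ‖q.1.2 i - p.1.2 i‖ < ‖p.1.2 i‖ / 2} =
        ⋂ i, {q : P.Surf | ‖q.1.2 i - p.1.2 i‖ < ‖p.1.2 i‖ / 2} := by
        ext q; simp
      change IsOpen {q : P.Surf | ∀ i, ‖q.1.2 i - p.1.2 i‖ < ‖p.1.2 i‖ / 2}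
      rw [this]
      apply isOpen_iInter_of_finite
      intro i
      exact isOpen_lt (by fun_prop) continuous_const
  have hz12 : ∀ z ∈ Metric.ball (0 : ℂ) ρ, ∀ i, ‖z‖ ≤ ‖P.G i c‖ / 12 := by
    intro z hz i
    rw [mem_ball_zero_iff] at hz
    exact hz.le.trans (hρ i)
  have hre : ∀ z ∈ Metric.ball (0 : ℂ) ρ, |z.re| < 1 / 2 ∧ |z.im| < 1 / 2 := by
    intro z hz
    rw [mem_ball_zero_iff] at hz
    have h1 := Complex.abs_re_le_norm z
    have h2 := Complex.abs_im_le_norm z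
    constructor <;> linarith
  have k1 : ContinuousOn (fun q : P.Surf => lft c q.1.1) V := by
    intro q hq
    apply ContinuousAt.continuousWithinAt
    exact ContinuousAt.comp (g := lft c) (f := fun q : P.Surf => q.1.1)
      (lft_continuousAt hq.1.1 hq.1.2) (by fun_prop)
  have k2 : ContinuousOn s (Metric.ball 0 ρ) := by
    intro z hz
    apply ContinuousAt.continuousWithinAt
    refine (continuous_tor c).continuousAt.prodMk ?_
    rw [continuousAt_pi]
    intro i
    exact brn_continuousAt P (hp i) (hz12 z hz i)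
  have k3 : ∀ z ∈ Metric.ball (0 : ℂ) ρ, ∀ i, (s z).2 i ^ 3 = P.G i (s z).1 := by
    intro z hz i
    exact brn_cube P z (hp i) (hw i)
  have k4 : ∀ z ∈ Metric.ball (0 : ℂ) ρ, ∀ q : P.Surf, q.1 = s z → q ∈ V ∧ lft c q.1.1 = z := by
    intro z hz q hq
    have h1 : q.1.1 = tor c z := by rw [hq]
    have h2 : ∀ i, q.1.2 i = brn P i c (p.1.2 i) z := by intro i; rw [hq]
    refine ⟨⟨⟨?_, ?_⟩, ?_⟩, ?_⟩
    · rw [h1]
      simp only [tor, add_sub_cancel_left]
      exact (norm_coe_le _).trans_lt (hre z hz).1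
    · rw [h1]
      simp only [tor, add_sub_cancel_left]
      exact (norm_coe_le _).trans_lt (hre z hz).2
    · intro i
      rw [h2 i]
      have h3 := brn_close P (w := p.1.2 i) (hp i) (hz12 z hz i)
      have := norm_pos_iff.2 (hw0 i)
      linarith
    · rw [h1, lft_tor c (hre z hz).1 (hre z hz).2]
  have k5 : ∀ q ∈ V, lft c q.1.1 ∈ Metric.ball (0 : ℂ) ρ → s (lft c q.1.1) = q.1 := by
    intro q hq hz
    have h1 : tor c (lft c q.1.1) = q.1.1 := tor_lft _ _
    refine Prod.ext h1 ?_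
    funext i
    refine brn_unique P (hp i) (hw i) (hz12 _ hz i) (hq.2 i) ?_
    rw [h1]
    exact q.2 i
  obtain ⟨e, he1, he2, he3, he4⟩ :=
    exists_homeo P (fun q => lft c q.1.1) s V ρ hV k1 k2 k3 k4 k5 p
  refine ⟨e, ?_, ⟨c, ?_⟩, ?_⟩
  · rw [he1]
    refine ⟨⟨⟨?_, ?_⟩, ?_⟩, ?_⟩
    · rw [← hc]; simp
    · rw [← hc]; simp
    · intro i
      rw [sub_self, norm_zero]
      have := norm_pos_iff.2 (hw0 i)
      linarith
    · rw [mem_preimage, ← hc]
      have : lft c c = 0 := by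
        have := lft_tor c (z := 0) (by norm_num) (by norm_num)
        rwa [tor_zero] at this
      rw [this]
      exact Metric.mem_ball_self hρ0
  · intro z hz
    rw [he2] at hz
    rw [he4 z hz]
  · intro q hq i
    rw [he1] at hq
    exact ne_zero_of_close (hq.1.2 i)

theorem exists_br (p : P.Surf) (i : Fin 2) (b : Bool) (hpi : p.1.1 = ept P i b) :
    ∃ e : OpenPartialHomeomorph P.Surf ℂ, p ∈ e.source ∧ Br P e := by
  set c : Tor := ept P i b with hc
  have hw : ∀ i, p.1.2 i ^ 3 = P.G i c := by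
    intro i
    rw [← hpi]
    exact p.2 i
  have hg : ∀ j ≠ i, P.G j c ≠ 0 := fun j hj => G_ept_ne P b hj
  have hw0 : ∀ j ≠ i, p.1.2 j ≠ 0 := by
    intro j hj h
    have := hw j
    rw [h] at this
    exact hg j hj (by rw [← this]; norm_num)
  have hri : 0 < P.r i := (Pool.Agent.helper9.Rot.r_bd P i).1
  have hri2 : P.r i < 1 / 16 := (Pool.Agent.helper9.Rot.r_bd P i).2
  have hwi : p.1.2 i = 0 := by
    have h := G_ept P i b (ζ := 0) (by simpa using hri.le) (by norm_num)
    rw [tor_zero, bco_zero] at h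
    have := hw i
    rw [← hc] at h
    rw [h] at this
    exact pow_eq_zero_iff (by norm_num) |>.1 this
  obtain ⟨ρ, hρ0, hρ1, hρ⟩ : ∃ ρ : ℝ, 0 < ρ ∧ ρ ≤ P.r i ∧ ∀ j ≠ i, ρ ≤ ‖P.G j c‖ / 12 := by
    obtain ⟨j, hj, hj2⟩ : ∃ j, j ≠ i ∧ ∀ k, k ≠ i → k = j := by
      fin_cases i
      · exact ⟨1, by decide, by decide⟩
      · exact ⟨0, by decide, by decide⟩
    refine ⟨min (P.r i) (‖P.G j c‖ / 12), ?_, min_le_left _ _, ?_⟩
    · have h0 : 0 < ‖P.G j c‖ := norm_pos_iff.2 (hg j hj)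
      positivity
    · intro k hk
      rw [hj2 k hk]
      exact min_le_right _ _
  let s : ℂ → Tor × (Fin 2 → ℂ) := fun z =>
    (tor c (z ^ 3), fun j => if j = i then bco b z else brn P j c (p.1.2 j) (z ^ 3))
  let V : Set P.Surf := {q | (‖q.1.1.1 - c.1‖ < P.r i ∧ ‖q.1.1.2 - c.2‖ < 1 / 8) ∧
    ∀ j, j ≠ i → ‖q.1.2 j - p.1.2 j‖ < ‖p.1.2 j‖ / 2}
  have hval : Continuous fun q : P.Surf => q.1 := continuous_subtype_val
  have hV : IsOpen V := by
    refine IsOpen.inter (IsOpen.inter ?_ ?_) ?_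
    · exact isOpen_lt (f := fun q : P.Surf => ‖q.1.1.1 - c.1‖) (g := fun _ => P.r i)
        (by fun_prop) continuous_const
    · exact isOpen_lt (f := fun q : P.Surf => ‖q.1.1.2 - c.2‖) (g := fun _ => 1 / 8)
        (by fun_prop) continuous_const
    · have : {q : P.Surf | ∀ j, j ≠ i → ‖q.1.2 j - p.1.2 j‖ < ‖p.1.2 j‖ / 2} =
        ⋂ j, ⋂ (_ : j ≠ i), {q : P.Surf | ‖q.1.2 j - p.1.2 j‖ < ‖p.1.2 j‖ / 2} := by
        ext q; simp
      change IsOpen {q : P.Surf | ∀ j, j ≠ i → ‖q.1.2 j - p.1.2 j‖ < ‖p.1.2 j‖ / 2}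
      rw [this]
      apply isOpen_iInter_of_finite
      intro j
      apply isOpen_iInter_of_finite
      intro hj
      exact isOpen_lt (by fun_prop) continuous_const
  have hz3 : ∀ z ∈ Metric.ball (0 : ℂ) ρ, ‖z ^ 3‖ < ρ := by
    intro z hz
    rw [mem_ball_zero_iff] at hz
    rw [norm_pow]
    have h0 := norm_nonneg z
    have h1 : ‖z‖ < 1 := by linarith
    nlinarith [mul_nonneg h0 h0, mul_nonneg (mul_nonneg h0 h0) h0]
  have hz12 : ∀ z ∈ Metric.ball (0 : ℂ) ρ, ∀ j ≠ i, ‖z ^ 3‖ ≤ ‖P.G j c‖ / 12 := by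
    intro z hz j hj
    exact (hz3 z hz).le.trans (hρ j hj)
  have hre : ∀ z ∈ Metric.ball (0 : ℂ) ρ, |(z ^ 3).re| < P.r i ∧ |(z ^ 3).im| < 1 / 8 := by
    intro z hz
    have h0 := hz3 z hz
    have h1 := Complex.abs_re_le_norm (z ^ 3)
    have h2 := Complex.abs_im_le_norm (z ^ 3)
    constructor <;> linarith
  have hGi : ∀ z ∈ Metric.ball (0 : ℂ) ρ, P.G i (tor c (z ^ 3)) = bco b z ^ 3 := by
    intro z hz
    rw [hc, G_ept P i b (hre z hz).1.le (hre z hz).2.le, bco_cube]
  have k1 : ContinuousOn (fun q : P.Surf => bco b (q.1.2 i)) V := by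
    apply Continuous.continuousOn
    exact (continuous_bco b).comp (by fun_prop)
  have k2 : ContinuousOn s (Metric.ball 0 ρ) := by
    intro z hz
    apply ContinuousAt.continuousWithinAt
    refine ((continuous_tor c).comp (continuous_pow 3)).continuousAt.prodMk ?_
    rw [continuousAt_pi]
    intro j
    by_cases hj : j = i
    · simp only [hj, if_true]
      exact (continuous_bco b).continuousAt
    · simp only [hj, if_false]
      exact ContinuousAt.comp (g := brn P j c (p.1.2 j)) (f := fun z : ℂ => z ^ 3)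
        (brn_continuousAt P (hg j hj) (hz12 z hz j hj)) (by fun_prop)
  have k3 : ∀ z ∈ Metric.ball (0 : ℂ) ρ, ∀ i, (s z).2 i ^ 3 = P.G i (s z).1 := by
    intro z hz j
    by_cases hj : j = i
    · subst hj
      simp only [s, if_true]
      exact (hGi z hz).symm
    · simp only [s, hj, if_false]
      exact brn_cube P (z ^ 3) (hg j hj) (hw j)
  have k4 : ∀ z ∈ Metric.ball (0 : ℂ) ρ, ∀ q : P.Surf, q.1 = s z →
      q ∈ V ∧ bco b (q.1.2 i) = z := by
    intro z hz q hq
    have h1 : q.1.1 = tor c (z ^ 3) := by rw [hq]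
    have h2 : ∀ j ≠ i, q.1.2 j = brn P j c (p.1.2 j) (z ^ 3) := by
      intro j hj
      rw [hq]
      simp only [s, hj, if_false]
    have h3 : q.1.2 i = bco b z := by
      rw [hq]
      simp only [s, if_true]
    refine ⟨⟨⟨?_, ?_⟩, ?_⟩, ?_⟩
    · rw [h1]
      simp only [tor, add_sub_cancel_left]
      exact (norm_coe_le _).trans_lt (hre z hz).1
    · rw [h1]
      simp only [tor, add_sub_cancel_left]
      exact (norm_coe_le _).trans_lt (hre z hz).2
    · intro j hj
      rw [h2 j hj]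
      have h3 := brn_close P (w := p.1.2 j) (hg j hj) (hz12 z hz j hj)
      have := norm_pos_iff.2 (hw0 j hj)
      linarith
    · rw [h3, bco_bco]
  have k5 : ∀ q ∈ V, bco b (q.1.2 i) ∈ Metric.ball (0 : ℂ) ρ → s (bco b (q.1.2 i)) = q.1 := by
    intro q hq hz
    have h1 : tor c (lft c q.1.1) = q.1.1 := tor_lft _ _
    have h2 : (bco b (q.1.2 i)) ^ 3 = lft c q.1.1 := by
      rw [← bco_cube, q.2 i]
      conv_lhs => rw [← h1]
      rw [hc, G_ept P i b ?_ ?_, bco_bco]
      · rw [← hc]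
        change |rl (q.1.1.1 - c.1)| ≤ _
        rw [abs_rl]
        exact hq.1.1.le
      · rw [← hc]
        change |rl (q.1.1.2 - c.2)| ≤ _
        rw [abs_rl]
        exact hq.1.2.le
    have h3 : tor c ((bco b (q.1.2 i)) ^ 3) = q.1.1 := by rw [h2, h1]
    refine Prod.ext h3 ?_
    funext j
    by_cases hj : j = i
    · subst hj
      simp only [s, if_true, bco_bco]
    · simp only [s, hj, if_false]
      refine brn_unique P (hg j hj) (hw j) (hz12 _ hz j hj) (hq.2 j hj) ?_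
      rw [h3]
      exact q.2 j
  obtain ⟨e, he1, he2, he3, he4⟩ :=
    exists_homeo P (fun q => bco b (q.1.2 i)) s V ρ hV k1 k2 k3 k4 k5 p
  refine ⟨e, ?_, i, b, ?_, ?_, ?_⟩
  · rw [he1]
    refine ⟨⟨⟨?_, ?_⟩, ?_⟩, ?_⟩
    · rw [hpi]; simpa using hri
    · rw [hpi]; simp
    · intro j hj
      rw [sub_self, norm_zero]
      have := norm_pos_iff.2 (hw0 j hj)
      linarith
    · rw [mem_preimage, hwi, bco_zero]
      exact Metric.mem_ball_self hρ0
  · intro q _
    exact he3 q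
  · intro z hz
    rw [he2] at hz
    rw [he4 z hz]
  · intro q hq j hj
    rw [he1] at hq
    exact ne_zero_of_close (hq.1.2 j hj)

theorem exists_chart (p : P.Surf) :
    ∃ e : OpenPartialHomeomorph P.Surf ℂ, p ∈ e.source ∧ (Gen P e ∨ Br P e) := by
  by_cases h : ∀ i, P.G i p.1.1 ≠ 0
  · obtain ⟨e, h1, h2⟩ := exists_gen P p h
    exact ⟨e, h1, Or.inl h2⟩
  · push Not at h
    obtain ⟨i, hi⟩ := h
    obtain ⟨h1, h2 | h2⟩ := G_eq_zero' P i hi
    · obtain ⟨e, h3, h4⟩ := exists_br P p i false (by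
        refine Prod.ext ?_ ?_
        · simpa [ept] using h2
        · simpa [ept] using h1)
      exact ⟨e, h3, Or.inr h4⟩
    · obtain ⟨e, h3, h4⟩ := exists_br P p i true (by
        refine Prod.ext ?_ ?_
        · simpa [ept] using h2
        · simpa [ept] using h1)
      exact ⟨e, h3, Or.inr h4⟩

/-- a continuous function with integer-valued differences is locally constant -/
theorem loc_const {U : Set ℂ} (hU : IsOpen U) {h : ℂ → ℝ} (hc : ContinuousOn h U)
    {a : UnitAddCircle} (ha : ∀ z ∈ U, ((h z : ℝ) : UnitAddCircle) = a) {z₀ : ℂ} (hz₀ : z₀ ∈ U) :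
    h =ᶠ[𝓝 z₀] fun _ => h z₀ := by
  have h1 : ContinuousAt h z₀ := hc.continuousAt (hU.mem_nhds hz₀)
  have h2 : ∀ᶠ z in 𝓝 z₀, |h z - h z₀| < 1 := by
    have := Metric.tendsto_nhds.1 h1 1 one_pos
    simpa [Real.dist_eq] using this
  filter_upwards [h2, hU.mem_nhds hz₀] with z hz hzU
  have h3 : ((h z - h z₀ : ℝ) : UnitAddCircle) = 0 := by
    rw [AddCircle.coe_sub, ha z hzU, ha z₀ hz₀, sub_self]
  rw [AddCircle.coe_eq_zero_iff] at h3
  obtain ⟨n, hn⟩ := h3
  simp only [zsmul_eq_mul, mul_one] at hn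
  rw [← hn, ← Int.cast_abs] at hz
  have h4 : |n| < 1 := by exact_mod_cast hz
  have h5 : n = 0 := Int.abs_lt_one_iff.1 h4
  rw [h5, Int.cast_zero] at hn
  linarith

theorem tor_eq_iff {c c' : Tor} {z z' : ℂ} (h : tor c z = tor c' z') :
    (((z - z').re : ℝ) : UnitAddCircle) = c'.1 - c.1 ∧
    (((z - z').im : ℝ) : UnitAddCircle) = c'.2 - c.2 := by
  have h1 : c.1 + (z.re : UnitAddCircle) = c'.1 + (z'.re : UnitAddCircle) :=
    congrArg Prod.fst h
  have h2 : c.2 + (z.im : UnitAddCircle) = c'.2 + (z'.im : UnitAddCircle) :=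
    congrArg Prod.snd h
  rw [Complex.sub_re, Complex.sub_im, AddCircle.coe_sub, AddCircle.coe_sub]
  constructor
  · rw [eq_sub_iff_add_eq, sub_add_eq_add_sub, sub_eq_iff_eq_add, add_comm, h1]
  · rw [eq_sub_iff_add_eq, sub_add_eq_add_sub, sub_eq_iff_eq_add, add_comm, h2]

theorem loc_const_tor {U : Set ℂ} (hU : IsOpen U) {f g : ℂ → ℂ} (hf : ContinuousOn f U)
    (hg : ContinuousOn g U) {c c' : Tor} (h : ∀ z ∈ U, tor c (f z) = tor c' (g z)) {z₀ : ℂ}
    (hz₀ : z₀ ∈ U) : f =ᶠ[𝓝 z₀] fun z => g z + (f z₀ - g z₀) := by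
  have h1 := loc_const hU (h := fun z => (f z - g z).re)
    (Complex.continuous_re.comp_continuousOn (hf.sub hg)) (fun z hz => (tor_eq_iff (h z hz)).1) hz₀
  have h2 := loc_const hU (h := fun z => (f z - g z).im)
    (Complex.continuous_im.comp_continuousOn (hf.sub hg)) (fun z hz => (tor_eq_iff (h z hz)).2) hz₀
  filter_upwards [h1, h2] with z hz1 hz2
  have : f z - g z = f z₀ - g z₀ := Complex.ext hz1 hz2
  rw [← this]; ring

theorem trans_diff (e e' : OpenPartialHomeomorph P.Surf ℂ) (he : Gen P e ∨ Br P e)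
    (he' : Gen P e' ∨ Br P e') : DifferentiableOn ℂ (e.symm ≫ₕ e') (e.symm ≫ₕ e').source := by
  set U : Set ℂ := (e.symm ≫ₕ e').source with hUdef
  let f : ℂ → ℂ := fun z => e' (e.symm z)
  change DifferentiableOn ℂ f U
  have hU : IsOpen U := (e.symm ≫ₕ e').open_source
  have hf : ContinuousOn f U := (e.symm ≫ₕ e').continuousOn
  have hmem : ∀ z ∈ U, z ∈ e.target ∧ e.symm z ∈ e'.source := by
    intro z hz
    rw [hUdef, OpenPartialHomeomorph.trans_source] at hz
    exact ⟨hz.1, hz.2⟩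
  have hfz : ∀ z, f z = e' (e.symm z) := fun z => rfl
  have hfm : ∀ z ∈ U, f z ∈ e'.target := fun z hz => e'.map_source (hmem z hz).2
  have hfs : ∀ z ∈ U, e'.symm (f z) = e.symm z := fun z hz => e'.left_inv (hmem z hz).2
  -- the function downstairs
  obtain ⟨c, g, hg, hgz⟩ : ∃ (c : Tor) (g : ℂ → ℂ), Differentiable ℂ g ∧
      ∀ z ∈ e.target, (e.symm z).1.1 = tor c (g z) := by
    rcases he with ⟨⟨c, hc⟩, -⟩ | ⟨i, b, -, hc, -⟩
    · exact ⟨c, fun z => z, differentiable_id, hc⟩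
    · exact ⟨_, fun z => z ^ 3, by fun_prop, hc⟩
  intro z₀ hz₀
  apply DifferentiableAt.differentiableWithinAt
  rcases he' with ⟨⟨c', hc'⟩, hne'⟩ | ⟨i', b', hb', hc', hne'⟩
  · have h1 : ∀ z ∈ U, tor c' (f z) = tor c (g z) := by
      intro z hz
      rw [← hc' _ (hfm z hz), hfs z hz, hgz z (hmem z hz).1]
    rw [(loc_const_tor hU hf hg.continuous.continuousOn h1 hz₀).differentiableAt_iff]
    exact (hg z₀).add_const _
  · by_cases h0 : f z₀ = 0
    · rcases he with ⟨-, hne⟩ | ⟨i, b, hb, hc, hne⟩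
      · exfalso
        have h2 := hb' _ (hmem z₀ hz₀).2
        rw [← hfz, h0] at h2
        have h3 : (e.symm z₀).1.2 i' = 0 := by
          rw [← bco_bco b' ((e.symm z₀).1.2 i'), ← h2, bco_zero]
        exact hne _ (e.map_target (hmem z₀ hz₀).1) i' h3
      · have h2 := hb' _ (hmem z₀ hz₀).2
        rw [← hfz, h0] at h2
        have h3 : (e.symm z₀).1.2 i' = 0 := by
          rw [← bco_bco b' ((e.symm z₀).1.2 i'), ← h2, bco_zero]
        have hs := e.map_target (hmem z₀ hz₀).1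
        have hii : i' = i := by
          by_contra hii
          exact hne _ hs i' hii h3
        subst hii
        have h4 : z₀ = 0 := by
          have := hb _ hs
          rw [e.right_inv (hmem z₀ hz₀).1, h3, bco_zero] at this
          exact this
        have h5 : b' = b := by
          have h6 := hc' _ (hfm z₀ hz₀)
          rw [hfs z₀ hz₀, hc z₀ (hmem z₀ hz₀).1, h0, h4] at h6
          norm_num [tor_zero] at h6
          exact (ept_inj P h6).symm
        subst h5
        have h6 : f =ᶠ[𝓝 z₀] fun z => z := by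
          filter_upwards [hU.mem_nhds hz₀] with z hz
          rw [hfz, hb' _ (hmem z hz).2, ← hb _ (e.map_target (hmem z hz).1),
            e.right_inv (hmem z hz).1]
        rw [h6.differentiableAt_iff]
        exact differentiableAt_id
    · apply diff_of_cube (hf.continuousAt (hU.mem_nhds hz₀)) h0
      have h1 : ∀ z ∈ U, tor (ept P i' b') (f z ^ 3) = tor c (g z) := by
        intro z hz
        rw [← hc' _ (hfm z hz), hfs z hz, hgz z (hmem z hz).1]
      rw [(loc_const_tor hU (f := fun z => f z ^ 3) (hf.pow 3) hg.continuous.continuousOn h1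
        hz₀).differentiableAt_iff]
      exact (hg z₀).add_const _

/-- The surface is a Riemann surface. -/
theorem surf_manifold : ∃ _ : ChartedSpace ℂ P.Surf, IsManifold 𝓘(ℂ) ω P.Surf := by
  classical
  let cs : ChartedSpace ℂ P.Surf :=
    { atlas := {e | Gen P e ∨ Br P e}
      chartAt := fun p => Classical.choose (exists_chart P p)
      mem_chart_source := fun p => (Classical.choose_spec (exists_chart P p)).1
      chart_mem_atlas := fun p => (Classical.choose_spec (exists_chart P p)).2 }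
  refine ⟨cs, ?_⟩
  apply isManifold_of_contDiffOn
  intro e e' he he'
  have h := trans_diff P e e' he he'
  have h2 := h.contDiffOn (n := ω) (e.symm ≫ₕ e').open_source
  simpa using h2

end charts

end Pool.Agent.helper17.Rot
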